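import Pool.Agent.Helper15.RA.GoalsH

/-!
# Project RA (MP_cc6379_al), packet RA-E2: the function `a'`
-/

set_option autoImplicit false

open LaurentPolynomial

noncomputable section

namespace Pool.Agent.Helper32.RA

open Pool.Agent.Helper15.RA

section gp

variable {V W : Type} [Group W] {Γ : SimpleGraph V} {G : V → Subgroup W} {sl : W → ℕ}

theorem le_succ (p : GP Γ G sl) {v : V} {g : W} (hg : g ∈ G v) (w : W) :
    sl (g * w) ≤ sl w + 1 := by
  by_cases h : g = 1
  · rw [h, one_mul]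
    exact Nat.le_succ _
  · have h1 := p.mul g w
    rw [p.syl v g hg h] at h1
    omega

theorem le_succ' (p : GP Γ G sl) {v : V} {g : W} (hg : g ∈ G v) (w : W) :
    sl w ≤ sl (g * w) + 1 := by
  have h := le_succ p ((G v).inv_mem hg) (g * w)
  rwa [inv_mul_cancel_left] at h

/-- Either `w` is minimal in its coset, or there is a unique descent. -/
theorem min_or (p : GP Γ G sl) (v : V) (w : W) :
    (∀ h ∈ G v, h ≠ 1 → sl (h * w) = sl w + 1) ∨
    ∃ g ∈ G v, g ≠ 1 ∧ sl (g * w) + 1 = sl w ∧ ∀ h ∈ G v, h ≠ g → sl w ≤ sl (h * w) := by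
  obtain ⟨g, hg, h⟩ := p.coset v w
  by_cases hg1 : g = 1
  · left
    intro k hk hk1
    have := h k hk hk1
    rwa [hg1, one_mul] at this
  · right
    have h1 := h g⁻¹ ((G v).inv_mem hg) (inv_ne_one.2 hg1)
    rw [inv_mul_cancel_left] at h1
    refine ⟨g, hg, hg1, h1.symm, fun k hk hkg => ?_⟩
    have h2 := h (k * g⁻¹) ((G v).mul_mem hk ((G v).inv_mem hg)) (by
      rw [Ne, mul_inv_eq_one]
      exact hkg)
    have h3 : k * g⁻¹ * (g * w) = k * w := by group
    rw [h3] at h2
    omega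

theorem min_of_one (p : GP Γ G sl) {v : V} {w g : W} (hg : g ∈ G v) (hg1 : g ≠ 1)
    (h : sl (g * w) = sl w + 1) : ∀ l ∈ G v, l ≠ 1 → sl (l * w) = sl w + 1 := by
  rcases min_or p v w with h1 | ⟨k, hk, hk1, hk2, hk3⟩
  · exact h1
  · exfalso
    obtain ⟨k', hk', hk''⟩ := p.coset v w
    by_cases e : k' = 1
    · have := hk'' k hk hk1
      rw [e, one_mul] at this
      omega
    · have h2 := hk'' k'⁻¹ ((G v).inv_mem hk') (inv_ne_one.2 e)
      rw [inv_mul_cancel_left] at h2
      by_cases e2 : g = k'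
      · rw [← e2] at h2
        omega
      · have h3 := hk'' (g * k'⁻¹) ((G v).mul_mem hg ((G v).inv_mem hk')) (by
          rw [Ne, mul_inv_eq_one]
          exact e2)
        have h4 : g * k'⁻¹ * (k' * w) = g * w := by group
        rw [h4] at h3
        omega

theorem desc_unique (p : GP Γ G sl) {v : V} {w g k : W} (hg : g ∈ G v) (hk : k ∈ G v)
    (h1 : sl (g * w) + 1 = sl w) (h2 : sl (k * w) + 1 = sl w) : g = k := by
  rcases min_or p v w with h | ⟨k', hk', hk1, hk2, hk3⟩
  · have hg1 : g ≠ 1 := by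
      rintro rfl
      rw [one_mul] at h1
      omega
    have := h g hg hg1
    omega
  · have e1 : g = k' := by
      by_contra hne
      have := hk3 g hg hne
      omega
    have e2 : k = k' := by
      by_contra hne
      have := hk3 k hk hne
      omega
    rw [e1, e2]

/-- `E_0` in the left form. -/
theorem e0L (h0 : E_0) (p : GP Γ G sl) {u : V} {z w g : W} (hg : g ∈ G u) (hg1 : g ≠ 1)
    (h1 : sl (w * z) = sl w + sl z) (h2 : sl (g⁻¹ * (w * z)) + 1 = sl (w * z))
    (h3 : ∀ h ∈ G u, h ≠ 1 → sl (h * w) = sl w + 1) :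
    (∀ h ∈ G u, h * w = w * h) ∧ sl (g⁻¹ * z) + 1 = sl z := by
  have h4 := h0 V W Γ G sl p u z⁻¹ w⁻¹ g hg hg1 (by
    rw [← mul_inv_rev, p.inv, p.inv, p.inv, h1, add_comm]) (by
    rw [← mul_inv_rev]
    have e : (w * z)⁻¹ * g = (g⁻¹ * (w * z))⁻¹ := by group
    rw [e, p.inv, p.inv, h2]) (by
    intro h hh hh1
    have e : w⁻¹ * h = (h⁻¹ * w)⁻¹ := by group
    rw [e, p.inv, p.inv]
    exact h3 h⁻¹ ((G u).inv_mem hh) (inv_ne_one.2 hh1))
  refine ⟨fun h hh => ?_, ?_⟩
  · have h5 := h4.1 h hh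
    calc h * w = w * (w⁻¹ * h) * w := by group
      _ = w * (h * w⁻¹) * w := by rw [h5]
      _ = w * h := by group
  · have h5 := h4.2.1
    have e : z⁻¹ * g = (g⁻¹ * z)⁻¹ := by group
    rwa [e, p.inv, p.inv] at h5

/-- A left descent vertex of the product of a clique is a vertex of the clique. -/
theorem clq_desc (h1 : E_1) (p : GP Γ G sl) {u : V} {h : W} (hh : h ∈ G u) :
    ∀ K : List W, IsClq Γ G K → sl (h * K.prod) + 1 = sl K.prod → ∃ k ∈ K, k ∈ G u := by
  intro K
  induction K with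
  | nil =>
    intro _ h2
    rw [List.prod_nil, p.one] at h2
    omega
  | cons k K ih =>
    intro hK h2
    have hK' : IsClq Γ G K := ⟨fun l hl => hK.1 l (List.mem_cons_of_mem _ hl),
      (List.pairwise_cons.1 hK.2).2⟩
    obtain ⟨hk1, v, hv⟩ := hK.1 k List.mem_cons_self
    by_cases huv : v = u
    · subst huv
      exact ⟨k, List.mem_cons_self, hv⟩
    · have e1 := (h1 V W Γ G sl p).1 (k :: K) hK
      have e2 := (h1 V W Γ G sl p).1 K hK'
      have e3 : k⁻¹ * (k :: K).prod = K.prod := by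
        rw [List.prod_cons, inv_mul_cancel_left]
      have e4 : sl (k⁻¹ * (k :: K).prod) + 1 = sl (k :: K).prod := by
        rw [e3, e1, e2, List.length_cons]
      have e5 := (p.dia v u huv k⁻¹ ((G v).inv_mem hv) h hh _ e4 h2).2
      rw [e3, e1, List.length_cons] at e5
      obtain ⟨l, hl, hlu⟩ := ih hK' (by rw [e2]; omega)
      exact ⟨l, List.mem_cons_of_mem _ hl, hlu⟩

/-- `a'(w) ≥ m` for an abstract function `α`. -/
def GeA (Γ : SimpleGraph V) (G : V → Subgroup W) (sl : W → ℕ) (α : W → ℕ) (m : ℕ) (w : W) : Prop :=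
  ∃ (x : W) (K : List W) (y : W), IsClq Γ G K ∧ w = x * K.prod * y ∧
    sl w = sl x + K.length + sl y ∧ m ≤ (K.map α).sum

theorem part1 (h0 : E_0) (h1 : E_1) (p : GP Γ G sl) (α : W → ℕ) {u : V} {g l : W} (hg : g ∈ G u)
    (hl : l ∈ G u) (hg1 : g ≠ 1) (hl1 : l ≠ 1) {m : ℕ} {w : W} (hα : α g ≤ α l)
    (hw : sl (g * w) = sl w + 1) :
    sl (l * w) = sl w + 1 ∧ (GeA Γ G sl α m (g * w) → GeA Γ G sl α m (l * w)) := by
  have hmin := min_of_one p hg hg1 hw
  have hlw := hmin l hl hl1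
  refine ⟨hlw, ?_⟩
  rintro ⟨x, K, y, hK, he, hs, hm⟩
  have hKl := (h1 V W Γ G sl p).1 K hK
  have hdy : sl (K.prod * y) = K.length + sl y := by
    have a1 := p.mul x (K.prod * y)
    have a2 := p.mul K.prod y
    rw [← mul_assoc, ← he] at a1
    omega
  have hxdy : sl (x * (K.prod * y)) = sl x + sl (K.prod * y) := by
    rw [← mul_assoc, ← he]
    omega
  have hlw' : l * w = l * g⁻¹ * (x * K.prod * y) := by
    rw [← he]
    group
  rcases min_or p u x with hx | ⟨g', hg', hg'1, hx1, -⟩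
  · -- Case B
    have hgd : sl (g⁻¹ * (x * (K.prod * y))) + 1 = sl (x * (K.prod * y)) := by
      rw [← mul_assoc x, ← he, inv_mul_cancel_left]
      omega
    obtain ⟨hcx, hdy2⟩ := e0L h0 p hg hg1 hxdy hgd hx
    have hlg : l * g⁻¹ ∈ G u := (G u).mul_mem hl ((G u).inv_mem hg)
    rcases min_or p u K.prod with hd | ⟨h, hh, hh1, hd1, -⟩
    · -- Case B2
      obtain ⟨hcd, hy2⟩ := e0L h0 p hg hg1 (by rw [hdy, hKl]) hdy2 hd
      have e : l * w = x * K.prod * (l * (g⁻¹ * y)) := by
        calc l * w = (l * g⁻¹ * x) * K.prod * y := by rw [hlw']; group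
          _ = x * ((l * g⁻¹) * K.prod) * y := by rw [hcx _ hlg]; group
          _ = _ := by rw [hcd _ hlg]; group
      have b1 := le_succ p hl (g⁻¹ * y)
      have b2 := p.mul (x * K.prod) (l * (g⁻¹ * y))
      have b3 := p.mul x K.prod
      rw [← e] at b2
      exact ⟨x, K, l * (g⁻¹ * y), hK, e, by omega, hm⟩
    · -- Case B1
      obtain ⟨k, hkK, hku⟩ := clq_desc h1 p hh K hK hd1
      obtain ⟨K', hperm⟩ : ∃ K', K.Perm (k :: K') := by
        classical
        exact ⟨K.erase k, List.perm_cons_erase hkK⟩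
      obtain ⟨hK', hprod⟩ := (h1 V W Γ G sl p).2.1 K (k :: K') hK hperm
      have hlen : K.length = K'.length + 1 := by rw [hperm.length_eq, List.length_cons]
      have hk1 : k ≠ 1 := (hK.1 k hkK).1
      have hclK' : IsClq Γ G K' := ⟨fun l hl => hK'.1 l (List.mem_cons_of_mem _ hl),
        (List.pairwise_cons.1 hK'.2).2⟩
      have hK'l := (h1 V W Γ G sl p).1 K' hclK'
      have e1 : k⁻¹ * (K.prod * y) = K'.prod * y := by
        rw [hprod, List.prod_cons]
        group
      have e2 : sl (k⁻¹ * (K.prod * y)) + 1 = sl (K.prod * y) := by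
        have a1 := le_succ' p ((G u).inv_mem hku) (K.prod * y)
        have a2 := p.mul K'.prod y
        rw [← e1] at a2
        omega
      have e3 : k = g := by
        have := desc_unique p ((G u).inv_mem hku) ((G u).inv_mem hg) e2 hdy2
        exact inv_injective this
      subst e3
      refine ⟨x, l :: K', y, ⟨?_, ?_⟩, ?_, ?_, ?_⟩
      · intro k' hk'
        rcases List.mem_cons.1 hk' with rfl | hk'
        · exact ⟨hl1, u, hl⟩
        · exact hclK'.1 k' hk'
      · refine List.pairwise_cons.2 ⟨fun k' hk' => ?_, hclK'.2⟩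
        obtain ⟨u₁, v₁, ha, hb, hc⟩ := (List.pairwise_cons.1 hK'.2).1 k' hk'
        have e4 : u₁ = u := by
          by_contra hne
          exact hg1 (p.disj u₁ u hne k hb hg)
        subst e4
        exact ⟨u₁, v₁, ha, hl, hc⟩
      · calc l * w = (l * k⁻¹ * x) * K.prod * y := by rw [hlw']; group
          _ = x * (l * (k⁻¹ * (K.prod * y))) := by rw [hcx _ hlg]; group
          _ = x * (l :: K').prod * y := by rw [e1, List.prod_cons]; group
      · rw [List.length_cons]
        omega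
      · have e5 : (K.map α).sum = α k + (K'.map α).sum := by
          rw [(hperm.map α).sum_eq, List.map_cons, List.sum_cons]
        rw [List.map_cons, List.sum_cons]
        omega
  · -- Case A
    have hw1 : g' * g * w = (g' * x) * K.prod * y := by
      rw [mul_assoc g' g w, he]
      group
    have e1 : g' * g = 1 := by
      by_contra hne
      have a1 := hmin (g' * g) ((G u).mul_mem hg' hg) hne
      have a2 := p.mul (g' * x * K.prod) y
      have a3 := p.mul (g' * x) K.prod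
      rw [hw1] at a1
      omega
    have hw2 : w = (g' * x) * K.prod * y := by rw [← hw1, e1, one_mul]
    have e : l * w = (l * (g' * x)) * K.prod * y := by
      rw [hw2]
      group
    have b1 := le_succ p hl (g' * x)
    have b2 := p.mul (l * (g' * x) * K.prod) y
    have b3 := p.mul (l * (g' * x)) K.prod
    rw [← e] at b2
    exact ⟨l * (g' * x), K, y, hK, e, by omega, hm⟩

theorem clq_inv {K : List W} (hK : IsClq Γ G K) :
    IsClq Γ G (K.map fun k => k⁻¹).reverse := by
  refine ⟨fun k hk => ?_, ?_⟩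
  · rw [List.mem_reverse, List.mem_map] at hk
    obtain ⟨k', hk', rfl⟩ := hk
    obtain ⟨h1, v, hv⟩ := hK.1 k' hk'
    exact ⟨inv_ne_one.2 h1, v, (G v).inv_mem hv⟩
  · rw [List.pairwise_reverse, List.pairwise_map]
    refine hK.2.imp ?_
    rintro a b ⟨u, v, huv, ha, hb⟩
    exact ⟨v, u, huv.symm, (G v).inv_mem hb, (G u).inv_mem ha⟩

theorem geA_inv (p : GP Γ G sl) (α : W → ℕ) {m : ℕ} {w : W} (h : GeA Γ G sl α m w) :
    GeA Γ G sl (fun k => α k⁻¹) m w⁻¹ := by
  obtain ⟨x, K, y, hK, he, hs, hm⟩ := h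
  refine ⟨y⁻¹, (K.map fun k => k⁻¹).reverse, x⁻¹, clq_inv hK, ?_, ?_, ?_⟩
  · rw [he, ← List.prod_inv_reverse]
    group
  · rw [p.inv, p.inv, p.inv, List.length_reverse, List.length_map]
    omega
  · rw [List.map_reverse, List.sum_reverse, List.map_map]
    have e : ((fun k => α k⁻¹) ∘ fun k : W => k⁻¹) = α := by
      funext k
      simp
    rw [e]
    exact hm

theorem part2 (h0 : E_0) (h1 : E_1) (p : GP Γ G sl) (α : W → ℕ) {u : V} {g l : W} (hg : g ∈ G u)
    (hl : l ∈ G u) (hg1 : g ≠ 1) (hl1 : l ≠ 1) {m : ℕ} {w : W} (hα : α g ≤ α l)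
    (hw : sl (w * g) = sl w + 1) :
    sl (w * l) = sl w + 1 ∧ (GeA Γ G sl α m (w * g) → GeA Γ G sl α m (w * l)) := by
  have h2 := part1 h0 h1 p (fun k => α k⁻¹) (m := m) (w := w⁻¹) ((G u).inv_mem hg)
    ((G u).inv_mem hl) (inv_ne_one.2 hg1) (inv_ne_one.2 hl1) (by
      rw [inv_inv, inv_inv]
      exact hα) (by
      rw [← mul_inv_rev, p.inv, p.inv]
      exact hw)
  rw [← mul_inv_rev, ← mul_inv_rev, p.inv, p.inv] at h2
  refine ⟨h2.1, fun h => ?_⟩
  have h3 := geA_inv p _ (h2.2 (geA_inv p α h))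
  simp only [inv_inv] at h3
  exact h3

end gp

/-- Packet RA-E2. -/
theorem h_e2 (h0 : E_0) (h1 : E_1) : Pool.Agent.Helper15.RA.E_2 := by
  intro I W V H _ _ _ X
  have p := X.gp
  have hge : ∀ m w, X.Ge m w ↔ GeA X.Γ X.G X.sl X.α m w := fun m w => Iff.rfl
  refine ⟨?_, ?_, ?_, ?_, ?_, ?_, ?_, ?_, ?_⟩
  · intro u g hg l hl hg1 hl1 m w hα hw
    exact part1 h0 h1 p X.α hg hl hg1 hl1 hα hw
  · intro u g hg l hl hg1 hl1 m w hα hw
    exact part2 h0 h1 p X.α hg hl hg1 hl1 hα hw
  · intro m x w hxw h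
    rcases h with ⟨x₁, K, y₁, hK, he, hs, hm⟩ | ⟨x₁, K, y₁, hK, he, hs, hm⟩
    · have e : x * w = x₁ * K.prod * (y₁ * w) := by
        rw [he]
        group
      have hKl := (h1 V W X.Γ X.G X.sl p).1 K hK
      have a1 := p.mul (x₁ * K.prod) (y₁ * w)
      have a2 := p.mul x₁ K.prod
      have a3 := p.mul y₁ w
      rw [← e] at a1
      exact ⟨x₁, K, y₁ * w, hK, e, by omega, hm⟩
    · have e : x * w = (x * x₁) * K.prod * y₁ := by
        rw [he]
        group
      have hKl := (h1 V W X.Γ X.G X.sl p).1 K hK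
      have a1 := p.mul (x * x₁ * K.prod) y₁
      have a2 := p.mul (x * x₁) K.prod
      have a3 := p.mul x x₁
      rw [← e] at a1
      exact ⟨x * x₁, K, y₁, hK, e, by omega, hm⟩
  · intro w
    refine ⟨w, [], 1, ⟨by simp, by simp⟩, by simp, ?_, Nat.zero_le _⟩
    rw [p.one, List.length_nil, add_zero, add_zero]
  · rintro m m' w hm ⟨x, K, y, hK, he, hs, hmK⟩
    exact ⟨x, K, y, hK, he, hs, hm.trans hmK⟩
  · intro w hw
    obtain ⟨v, g, hg, hg1, hs⟩ := p.gen w hw
    refine ⟨1, [g], g⁻¹ * w, ⟨?_, by simp⟩, ?_, ?_, ?_⟩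
    · intro k hk
      rw [List.mem_singleton] at hk
      subst hk
      exact ⟨hg1, v, hg⟩
    · simp
    · rw [p.one, List.length_singleton]
      omega
    · have := X.a_pos v g hg hg1
      rw [Ctx.aK, List.map_cons, List.map_nil, List.sum_cons, List.sum_nil]
      omega
  · rintro m ⟨x, K, y, hK, he, hs, hm⟩
    rw [p.one] at hs
    have hK0 : K = [] := List.eq_nil_of_length_eq_zero (by omega)
    rw [hK0, Ctx.aK, List.map_nil, List.sum_nil] at hm
    omega
  · intro K hK
    have hKl := (h1 V W X.Γ X.G X.sl p).1 K hK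
    refine ⟨1, K, 1, hK, by simp, ?_, le_rfl⟩
    rw [p.one, hKl]
    omega
  · intro w
    obtain ⟨N, hN⟩ := X.a_bdd
    refine ⟨N * X.sl w + 1, ?_⟩
    rintro ⟨x, K, y, hK, he, hs, hm⟩
    have h2 : X.aK K ≤ N * K.length := by
      rw [Ctx.aK]
      have h3 : ∀ a ∈ K.map X.α, a ≤ N := by
        intro a ha
        obtain ⟨k, hk, rfl⟩ := List.mem_map.1 ha
        obtain ⟨-, v, hv⟩ := hK.1 k hk
        exact hN v k hv
      have h4 := List.sum_le_card_nsmul (K.map X.α) N h3
      rw [List.length_map, smul_eq_mul, mul_comm] at h4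
      exact h4
    have h3 : N * K.length ≤ N * X.sl w := Nat.mul_le_mul_left _ (by omega)
    omega

end Pool.Agent.Helper32.RA
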